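import Pool.Agent.Lib.MP_069854_nt.Part03
import Pool.Agent.Lib.MP_069854_nt.Part02
import Pool.Agent.Lib.MP_39df77_nt.Part08
import Pool.Agent.Lib.MP_39df77_nt.Part14

/-!
# Lower bound for the sixth moment: definitions

`L = log X`, `T = 2πX`.  `φ : ℝ → ℂ` is a smooth function supported in `[A,B]`, `A < B < 0`
(`MP069854.TF φ A B`).  `G g w = ∫ g(u) e^{uw} du` (`MP069854.G`).
-/

namespace MP39df77
open Complex MeasureTheory Filter Topology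
open MP069854 (G TF chi arith wt)

/-- `g_X(u) = exp(-2πi X e^u) φ(u)` -/
noncomputable def gX (φ : ℝ → ℂ) (X u : ℝ) : ℂ :=
  exp (-(2 * Real.pi * X * Real.exp u : ℝ) * I) * φ u

/-- `M_X(s) = X^s G(g_X)(s)` -/
noncomputable def MX (φ : ℝ → ℂ) (X : ℝ) (s : ℂ) : ℂ := (X : ℂ) ^ s * G (gX φ X) s

/-- triples of natural numbers -/
abbrev Tr := ℕ × ℕ × ℕ

/-- product of the first two entries -/
def hh (i : Tr) : ℕ := i.1 * i.2.1
/-- the last entry -/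
def nn (i : Tr) : ℕ := i.2.2
/-- the product of the three entries -/
def kk (i : Tr) : ℕ := i.1 * i.2.1 * i.2.2

/-- the box of triples with entries in `[1,X]` -/
noncomputable def Bx (X : ℝ) : Finset Tr :=
  Finset.Icc 1 ⌊X⌋₊ ×ˢ Finset.Icc 1 ⌊X⌋₊ ×ˢ Finset.Icc 1 ⌊X⌋₊

/-- the coefficient `F(log(xy)/L, log n/L)` of the triple `(x,y,n)` -/
noncomputable def cf (F : ℝ → ℝ → ℝ) (X : ℝ) (i : Tr) : ℝ :=
  F (Real.log (hh i) / Real.log X) (Real.log (nn i) / Real.log X)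

/-- `B_X(s) = ∑ F(log(xy)/L, log n/L) (xy)^{s-1} n^{-s}` -/
noncomputable def BX (F : ℝ → ℝ → ℝ) (X : ℝ) (s : ℂ) : ℂ :=
  ∑ i ∈ Bx X, (cf F X i : ℂ) * (hh i : ℂ) ^ (s - 1) * (nn i : ℂ) ^ (-s)

/-- `T_{h,n}(Y) = ∑_k e(-k₁k₂k₃n/h) φ(log(k₁k₂k₃/Y))` -/
noncomputable def TT (φ : ℝ → ℂ) (h n : ℕ) (Y : ℝ) : ℂ :=
  ∑' k : Tr, exp (-(2 * Real.pi * (kk k * n / h : ℝ) : ℝ) * I) * φ (Real.log (kk k / Y))

/-- `S_λ(X) = ∑_i c_i h_i^{-1} T_{h_i,n_i}(h_i X^λ/n_i)` -/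
noncomputable def SS (F : ℝ → ℝ → ℝ) (φ : ℝ → ℂ) (X lam : ℝ) : ℂ :=
  ∑ i ∈ Bx X, (cf F X i : ℂ) / (hh i : ℂ) * TT φ (hh i) (nn i) ((hh i : ℝ) * X ^ lam / (nn i : ℝ))

/-- the class of coefficient functions: continuous on `ℝ²` and, on the closed quadrant, supported
in the region `3u/2 + v ≤ 1 - η`, `u - v ≤ 1/2 - η`. -/
structure FC (F : ℝ → ℝ → ℝ) (η : ℝ) : Prop where
  cont : Continuous fun p : ℝ × ℝ => F p.1 p.2
  eta : 0 < η
  eta' : η ≤ 1/4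
  supp : ∀ u v : ℝ, 0 ≤ u → 0 ≤ v → F u v ≠ 0 → 3/2 * u + v ≤ 1 - η ∧ u - v ≤ 1/2 - η

/-- `H(α,δ) = ∫_0^∞ τ F(α+τ, δ+τ) dτ` -/
noncomputable def HF (F : ℝ → ℝ → ℝ) (α δ : ℝ) : ℝ :=
  ∫ τ in Set.Ioi (0:ℝ), τ * F (α + τ) (δ + τ)

/-- the quadratic form of the norm -/
noncomputable def GG (F : ℝ → ℝ → ℝ) : ℝ :=
  ∫ α in Set.Ioi (0:ℝ), ∫ δ in Set.Ioi (0:ℝ), α ^ 3 / 6 * HF F α δ ^ 2

/-- the kernel of the inner product -/
noncomputable def psi (α δ : ℝ) : ℝ :=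
  α ^ 3 * (1 - δ) ^ 2 / 12 - α ^ 4 * (1 - δ) / 12 + α ^ 5 / 120

/-- the linear form of the inner product with `ζ³` -/
noncomputable def JJ (F : ℝ → ℝ → ℝ) : ℝ :=
  ∫ α in Set.Ioi (0:ℝ), ∫ δ in Set.Ioi (0:ℝ), HF F α δ * psi α δ

/-- interpolation nodes (`λ_j = 1 + μ_j`) -/
def mu (j : Fin 3) : ℝ := ![23, 24, 25] j
/-- interpolation weights -/
def cc (j : Fin 3) : ℝ := ![300, -575, 276] j

/-- the measure `y^{K-1}/(K-1)! dy` on `(0,∞)` -/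
noncomputable def wm (K : ℕ) : Measure ℝ :=
  (volume.restrict (Set.Ioi 0)).withDensity fun y => ENNReal.ofReal (wt K y)

instance (K : ℕ) : SigmaFinite (wm K) := by
  unfold wm
  exact SigmaFinite.withDensity_ofReal _

lemma integral_wm (K : ℕ) (f : ℝ → ℝ) :
    ∫ y, f y ∂(wm K) = ∫ y in Set.Ioi (0:ℝ), wt K y * f y := by
  unfold wm
  rw [integral_withDensity_eq_integral_toReal_smul]
  · refine setIntegral_congr_fun measurableSet_Ioi fun y hy => ?_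
    simp only [smul_eq_mul]
    rw [ENNReal.toReal_ofReal (MP069854.wt_nonneg K hy)]
  · exact (MP069854.wt_continuous K).measurable.ennreal_ofReal
  · exact Eventually.of_forall fun _ => ENNReal.ofReal_lt_top

/-- weights of the six-fold sums: `1/N` if `x₁x₂x₃ = y₁y₂y₃ = N ≥ 1` -/
noncomputable def aw (p : Tr × Tr) : ℝ := if kk p.1 = kk p.2 ∧ kk p.1 ≠ 0 then (kk p.1 : ℝ)⁻¹ else 0

/-- for the diagonal: `((x,y,m),(x',y',n)) ↦ (log xy, log n, log x'y', log m)` -/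
noncomputable def ptA (p : Tr × Tr) : Fin 4 → ℝ :=
  ![Real.log p.1.1 + Real.log p.1.2.1, Real.log p.2.2.2,
    Real.log p.2.1 + Real.log p.2.2.1, Real.log p.1.2.2]

/-- for the inner product: `((n,y,z),(x',y',w)) ↦ (log x'y', log n, log y, log z)` -/
noncomputable def ptB (p : Tr × Tr) : Fin 4 → ℝ :=
  ![Real.log p.2.1 + Real.log p.2.2.1, Real.log p.1.1, Real.log p.1.2.1, Real.log p.1.2.2]

/-- `(α,β,γ,δ) ↦ (α+β, δ+β, α+γ, δ+γ)` -/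
def lA (y : Fin 4 → ℝ) : Fin 4 → ℝ := ![y 0 + y 1, y 3 + y 1, y 0 + y 2, y 3 + y 2]

/-- `(n₁,y₁,z₁,p,q,r) ↦ (p+q+r, n₁+p, y₁+q, z₁+r)` -/
def lB (y : Fin 6 → ℝ) : Fin 4 → ℝ := ![y 3 + y 4 + y 5, y 0 + y 3, y 1 + y 4, y 2 + y 5]

/-- limit measure for the diagonal -/
noncomputable def muA : Measure (Fin 4 → ℝ) :=
  ENNReal.ofReal (arith 3) • Measure.map lA (Measure.pi fun i => wm (![4, 2, 2, 1] i))

/-- limit measure for the inner product -/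
noncomputable def muB : Measure (Fin 4 → ℝ) :=
  ENNReal.ofReal (arith 3) • Measure.map lB (Measure.pi fun i => wm (![1, 1, 1, 2, 2, 2] i))

/-- the piecewise linear step `0` for `t ≤ 6`, `1` for `t ≥ 7` -/
noncomputable def th (t : ℝ) : ℝ := max 0 (min 1 (t - 6))

/-- partition of unity: `w₁(a,b,c) = θ(a)/max(1, θ(a)+θ(b)+θ(c))` -/
noncomputable def w1 (a b c : ℝ) : ℝ := th a / max 1 (th a + th b + th c)

/-- the test function of the large-`λ` evaluation -/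
noncomputable def PhiB (F : ℝ → ℝ → ℝ) (lam : ℝ) (z : Fin 4 → ℝ) : ℝ :=
  F (z 0) (z 1) * w1 (lam + z 0 - z 1 - z 2 - z 3) (z 2) (z 3)

/-- the test function of the diagonal -/
def PhiA (F : ℝ → ℝ → ℝ) (z : Fin 4 → ℝ) : ℝ := F (z 0) (z 1) * F (z 2) (z 3)

/-- the value at `λ` of the inner product main term (without the factors `2π a₃ ∫φe^v`) -/
noncomputable def Jl (F : ℝ → ℝ → ℝ) (lam : ℝ) : ℝ :=
  3 * ∫ z, PhiB F lam z ∂(Measure.map lB (Measure.pi fun i => wm (![1, 1, 1, 2, 2, 2] i)))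

/-- third-order cancelling function of the nodes -/
noncomputable def bb (L : ℝ) (s : ℂ) : ℂ := 1 - ∑ j, (cc j : ℂ) * exp ((mu j * L : ℝ) * (s - 1))

end MP39df77
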