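import Pool.Agent.Lib.MP_39df77_nt.S6.Defs

set_option autoImplicit false

namespace MP39df77
open Complex MeasureTheory Filter Topology
open MP069854 (G TF chi arith wt)

variable {φ : ℝ → ℂ} {A B η : ℝ} {F : ℝ → ℝ → ℝ}

/-! ### Block N : the function `M_X` -/

/-- Row N1 -/
theorem G_tiny (hφ : TF φ A B) (hB : B < 0) (K : ℝ) (m : ℕ) :
    ∃ C : ℝ, 0 ≤ C ∧ ∀ X : ℝ, 1 ≤ X → ∀ s : ℂ, |s.re| ≤ K →
      (s.im ≤ Real.pi * Real.exp A * X ∨ 2 * Real.pi * X ≤ s.im) →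
      ‖G (gX φ X) s‖ * (X + |s.im|) ^ m ≤ C := sorry

/-- Row N2 -/
theorem G_decay (hφ : TF φ A B) (K : ℝ) (m : ℕ) :
    ∃ C : ℝ, 0 ≤ C ∧ ∀ X : ℝ, 1 ≤ X → ∀ s : ℂ, |s.re| ≤ K →
      ‖G (gX φ X) s‖ * (1 + ‖s‖) ^ m ≤ C * X ^ m := sorry

/-- Row N3 -/
theorem corr_eq (hφ : TF φ A B) (X ρ : ℝ) :
    ∫ t : ℝ, ((‖G (gX φ X) (1/2 + t * I)‖ ^ 2 : ℝ) : ℂ) * exp ((t * ρ : ℝ) * I) =
      2 * Real.pi * ∫ v : ℝ, φ (v - ρ) * (starRingEnd ℂ) (φ v) * (Real.exp (v - ρ / 2) : ℝ) *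
        exp ((2 * Real.pi * (X * (1 - Real.exp (-ρ))) * Real.exp v : ℝ) * I) := sorry

/-- Row N4 -/
theorem corr_bound (hφ : TF φ A B) (m : ℕ) :
    ∃ C : ℝ, 0 ≤ C ∧ ∀ X ρ : ℝ, 0 ≤ X →
      ‖∫ t : ℝ, ((‖G (gX φ X) (1/2 + t * I)‖ ^ 2 : ℝ) : ℂ) * exp ((t * ρ : ℝ) * I)‖ *
        (X * |1 - Real.exp (-ρ)|) ^ m ≤ C := sorry

/-! ### Block K : Karamata data -/

/-- Row K3 -/
theorem tuple_hasSum {α β : Fin 3 → ℝ} (h : ∀ i j, 0 < α i + β j) :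
    HasSum (fun p : Tr × Tr => aw p * Real.exp (-(α 0 * Real.log p.1.1 + α 1 * Real.log p.1.2.1 +
      α 2 * Real.log p.1.2.2 + β 0 * Real.log p.2.1 + β 1 * Real.log p.2.2.1 +
      β 2 * Real.log p.2.2.2))) (∑' n, Ff α β n) := sorry

/-- Row K4 -/
theorem gamma_laplace {m r : ℕ} (K : Fin m → ℕ) (hK : ∀ i, 1 ≤ K i) (M : Fin r → Fin m → ℝ)
    (hM : ∀ j i, 0 ≤ M j i) (lam : Fin r → ℝ) (hc : ∀ i, 0 < ∑ j, lam j * M j i) :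
    (∀ᵐ z ∂(Measure.map (fun (y : Fin m → ℝ) (j : Fin r) => ∑ i, M j i * y i)
      (Measure.pi fun i => wm (K i))), ∀ j, 0 ≤ z j) ∧
    Integrable (fun z : Fin r → ℝ => Real.exp (-∑ j, lam j * z j))
      (Measure.map (fun (y : Fin m → ℝ) (j : Fin r) => ∑ i, M j i * y i)
        (Measure.pi fun i => wm (K i))) ∧
    ∫ z, Real.exp (-∑ j, lam j * z j) ∂(Measure.map
      (fun (y : Fin m → ℝ) (j : Fin r) => ∑ i, M j i * y i) (Measure.pi fun i => wm (K i))) =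
      ∏ i, ((∑ j, lam j * M j i) ^ K i)⁻¹ := sorry

/-- Row K5 -/
theorem mdataA : MData aw ptA 9 muA := sorry

/-- Row K6 -/
theorem mdataB : MData aw ptB 9 muB := sorry

/-! ### Block B : the norm -/

/-- Row B1 -/
theorem norm_expand (hφ : TF φ A B) (F : ℝ → ℝ → ℝ) {X : ℝ} (hX : 1 ≤ X) :
    ((∫ t : ℝ, ‖MX φ X (1/2 + t * I) * BX F X (1/2 + t * I)‖ ^ 2 : ℝ) : ℂ) =
      X * ∑ i ∈ Bx X, ∑ j ∈ Bx X, ((cf F X i * cf F X j /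
        Real.sqrt ((hh i * nn i * hh j * nn j : ℕ) : ℝ) : ℝ) : ℂ) *
        ∫ t : ℝ, ((‖G (gX φ X) (1/2 + t * I)‖ ^ 2 : ℝ) : ℂ) *
          exp ((t * Real.log ((hh i * nn j : ℕ) / (nn i * hh j : ℕ) : ℝ) : ℝ) * I) := sorry

/-- Row B2 -/
theorem off_diag (hφ : TF φ A B) (hF : FC F η) :
    Tendsto (fun X : ℝ => ∑ i ∈ Bx X, ∑ j ∈ Bx X,
      if hh i * nn j = nn i * hh j then (0:ℝ) else
        |cf F X i * cf F X j| / Real.sqrt ((hh i * nn i * hh j * nn j : ℕ) : ℝ) *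
        ‖∫ t : ℝ, ((‖G (gX φ X) (1/2 + t * I)‖ ^ 2 : ℝ) : ℂ) *
          exp ((t * Real.log ((hh i * nn j : ℕ) / (nn i * hh j : ℕ) : ℝ) : ℝ) * I)‖)
      atTop (𝓝 0) := sorry

/-- Row B3 -/
theorem diag_limit (hF : FC F η) :
    Tendsto (fun X : ℝ => (Real.log X ^ 9)⁻¹ * ∑ i ∈ Bx X, ∑ j ∈ Bx X,
      if hh i * nn j = nn i * hh j then
        cf F X i * cf F X j / Real.sqrt ((hh i * nn i * hh j * nn j : ℕ) : ℝ) else 0)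
      atTop (𝓝 (∫ z, PhiA F z ∂muA)) := sorry

/-- Row B4 -/
theorem integral_PhiA (hF : FC F η) : ∫ z, PhiA F z ∂muA = arith 3 * GG F := sorry

/-- Row B5 -/
theorem norm_limit (hφ : TF φ A B) (hF : FC F η) :
    Tendsto (fun X : ℝ => (X * Real.log X ^ 9)⁻¹ *
      ∫ t : ℝ, ‖MX φ X (1/2 + t * I) * BX F X (1/2 + t * I)‖ ^ 2) atTop
      (𝓝 (2 * Real.pi * (∫ v : ℝ, ‖φ v‖ ^ 2 * Real.exp v) * (arith 3 * GG F))) := sorry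

/-! ### Block Z : from the critical line to exponential sums -/

/-- Row Z1 -/
theorem zeta_transform (hφ : TF φ A B) (hB : B < 0) (m : ℕ) :
    ∃ C : ℝ, 0 ≤ C ∧ ∀ X : ℝ, 1 ≤ X → ∀ y : ℝ, 0 < y → X⁻¹ ≤ y → y ≤ X →
      Integrable (fun t : ℝ => riemannZeta (1/2 + t * I) ^ 3 * MX φ X (1/2 + t * I) *
        (y : ℂ) ^ (1/2 + t * I : ℂ)) ∧
      ‖(∫ t : ℝ, riemannZeta (1/2 + t * I) ^ 3 * MX φ X (1/2 + t * I) *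
        (y : ℂ) ^ (1/2 + t * I : ℂ)) -
        2 * Real.pi * ∑' k : Tr, gX φ X (Real.log (kk k / (y * X)))‖ ≤ C * (X ^ m)⁻¹ := sorry

/-- Row Z2 -/
theorem inner_expand (hφ : TF φ A B) (hB : B < 0) (hF : FC F η) :
    Tendsto (fun X : ℝ => (∫ t : ℝ, riemannZeta (1/2 + t * I) ^ 3 *
      (MX φ X (1/2 + t * I) * BX F X (1/2 + t * I))) - 2 * Real.pi * SS F φ X 1) atTop (𝓝 0) := sorry

/-! ### Block D : the dual (error) bound -/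

/-- Row D8 -/
theorem dual_sum (hφ : TF φ A B) (hB : B < 0) (hF : FC F η) :
    Tendsto (fun X : ℝ => ((X * Real.log X ^ 9 : ℝ) : ℂ)⁻¹ * (SS F φ X 1 -
      ∑ j, (cc j : ℂ) * ((X ^ (-mu j) : ℝ) : ℂ) * SS F φ X (1 + mu j))) atTop (𝓝 0) := sorry

/-! ### Block L : large `λ` -/

/-- Row L1 -/
theorem char_sum_bv (q : ℕ) (hq : 1 ≤ q) (c : ℕ) (hc : ¬ q ∣ c) (W : ℕ → ℂ) (hW0 : W 0 = 0)
    (N : ℕ) (hW : ∀ x, N ≤ x → W x = 0) :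
    ‖∑ x ∈ Finset.range (N + 1), exp (-(2 * Real.pi * (x * c / q : ℝ) : ℝ) * I) * W x‖ ≤
      q * ∑ x ∈ Finset.range N, ‖W (x + 1) - W x‖ := sorry

/-- Row L2 -/
theorem symm_TT (hφ : TF φ A B) (hB : B < 0) :
    ∃ L₀ : ℝ, 1 ≤ L₀ ∧ ∀ L : ℝ, L₀ ≤ L → ∀ (h n : ℕ) (Y : ℝ), 1 ≤ h → 1 ≤ n →
      Real.exp (22 * L) ≤ Y →
      TT φ h n Y = 3 * ∑' k : Tr, exp (-(2 * Real.pi * (kk k * n / h : ℝ) : ℝ) * I) *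
        φ (Real.log (kk k / Y)) *
        (w1 (Real.log k.1 / L) (Real.log k.2.1 / L) (Real.log k.2.2 / L) : ℝ) := sorry

/-- Row L3 -/
theorem inner_x (hφ : TF φ A B) (hB : B < 0) :
    ∃ C : ℝ, 0 ≤ C ∧ ∀ L : ℝ, 1 ≤ L → ∀ (h n y z : ℕ) (Y : ℝ), 1 ≤ h → 1 ≤ n → 1 ≤ y → 1 ≤ z →
      0 < Y →
      ‖(∑' x : ℕ, exp (-(2 * Real.pi * ((x * y * z : ℕ) * n / h : ℝ) : ℝ) * I) *
        φ (Real.log ((x * y * z : ℕ) / Y)) *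
        (w1 (Real.log x / L) (Real.log y / L) (Real.log z / L) : ℝ)) -
        (if h ∣ n * y * z then (Y / (y * z) : ℝ) * ∫ v : ℝ, φ v * (Real.exp v : ℝ) *
          (w1 ((Real.log (Y / (y * z)) + v) / L) (Real.log y / L) (Real.log z / L) : ℝ) else 0)‖
      ≤ C * h := sorry

/-- Row L4 -/
theorem large_reduce (hφ : TF φ A B) (hB : B < 0) (hF : FC F η) (lam : ℝ) (hlam : 24 ≤ lam) :
    Tendsto (fun X : ℝ => ((X ^ lam * Real.log X ^ 9 : ℝ) : ℂ)⁻¹ * (SS F φ X lam -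
      3 * ∑ i ∈ Bx X, (cf F X i : ℂ) / (hh i : ℂ) *
        ∑' y : ℕ, ∑' z : ℕ, if hh i ∣ nn i * y * z ∧ 1 ≤ y ∧ 1 ≤ z then
          ((hh i * X ^ lam / (nn i * y * z : ℕ) : ℝ) : ℂ) * ∫ v : ℝ, φ v * (Real.exp v : ℝ) *
            (w1 ((Real.log (hh i * X ^ lam / (nn i * y * z : ℕ)) + v) / Real.log X)
              (Real.log y / Real.log X) (Real.log z / Real.log X) : ℝ) else 0)) atTop (𝓝 0) := sorry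

/-- Row L5 -/
theorem large_main (hφ : TF φ A B) (hB : B < 0) (hF : FC F η) (lam : ℝ) (hlam : 24 ≤ lam) :
    Tendsto (fun X : ℝ => ((X ^ lam * Real.log X ^ 9 : ℝ) : ℂ)⁻¹ * (
      3 * ∑ i ∈ Bx X, (cf F X i : ℂ) / (hh i : ℂ) *
        ∑' y : ℕ, ∑' z : ℕ, if hh i ∣ nn i * y * z ∧ 1 ≤ y ∧ 1 ≤ z then
          ((hh i * X ^ lam / (nn i * y * z : ℕ) : ℝ) : ℂ) * ∫ v : ℝ, φ v * (Real.exp v : ℝ) *
            (w1 ((Real.log (hh i * X ^ lam / (nn i * y * z : ℕ)) + v) / Real.log X)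
              (Real.log y / Real.log X) (Real.log z / Real.log X) : ℝ) else 0)) atTop
      (𝓝 ((∫ v : ℝ, φ v * (Real.exp v : ℝ)) * (arith 3 * Jl F lam : ℝ))) := sorry

/-! ### Block J : evaluation of the main term -/

/-- `A₃(Λ,q,r)` -/
noncomputable def A3 (Λ q r : ℝ) : ℝ :=
  Λ ^ 2 / 2 - 3 * Λ * (q + r) / 2 + 3 * (q ^ 2 + r ^ 2) / 4 + 3 * q * r

/-- Row J1 -/
theorem w1_integral {Λ q r : ℝ} (hΛ : 21 ≤ Λ) (hq : 0 ≤ q) (hq' : q ≤ 6) (hr : 0 ≤ r)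
    (hr' : r ≤ 6) :
    3 * ∫ b in Set.Ioi q, ∫ c in Set.Ioi r, w1 (Λ - b - c) b c = A3 Λ q r := sorry

/-- Row J2 -/
theorem Jl_eq (hF : FC F η) (lam : ℝ) (hlam : 24 ≤ lam) :
    Jl F lam = ∫ p in Set.Ioi (0:ℝ), ∫ q in Set.Ioi (0:ℝ), ∫ r in Set.Ioi (0:ℝ),
      ∫ n in Set.Ioi (0:ℝ), F (p + q + r) (n + p) * (p * q * r) * A3 (lam + q + r - n) q r := sorry

/-- Row J3 -/
theorem J_interp (hF : FC F η) : ∑ j, cc j * Jl F (1 + mu j) = JJ F := sorry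

/-- Row J4 -/
theorem inner_limit (hφ : TF φ A B) (hB : B < 0) (hF : FC F η) :
    Tendsto (fun X : ℝ => ((X * Real.log X ^ 9 : ℝ) : ℂ)⁻¹ *
      ∫ t : ℝ, riemannZeta (1/2 + t * I) ^ 3 *
        (MX φ X (1/2 + t * I) * BX F X (1/2 + t * I))) atTop
      (𝓝 (2 * Real.pi * (∫ v : ℝ, φ v * (Real.exp v : ℝ)) * (arith 3 * JJ F : ℝ))) := sorry

/-! ### Block E : the cross term -/

/-- Row E1 -/
theorem Gamma_ratio_mono {a b t : ℝ} (ha : 0 < a) (hab : a ≤ b) :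
    ‖Complex.Gamma (a + t * I)‖ * Real.Gamma b ≤ ‖Complex.Gamma (b + t * I)‖ * Real.Gamma a := sorry

/-- Row E2 -/
theorem chi_lower (k : ℕ) : ∃ c : ℝ, 0 < c ∧
    (∀ s : ℂ, 1/2 ≤ s.re → s.re ≤ k + 1/2 → 1 ≤ s.im → c ≤ ‖chi s‖) ∧
    ∀ t : ℝ, 1 ≤ t → c * t ^ k ≤ ‖chi ((k + 1/2 : ℝ) + t * I)‖ := sorry

/-- Row E3 -/
theorem cross_limit (hφ : TF φ A B) (hB : B < 0) (hF : FC F η) :
    Tendsto (fun X : ℝ => ∫ t in (0:ℝ)..(2 * Real.pi * X), (chi (1/2 + t * I) ^ 3)⁻¹ *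
      (MX φ X (1/2 + t * I) * BX F X (1/2 + t * I)) ^ 2) atTop (𝓝 0) := sorry

/-! ### Block O : assembly -/

/-- Row O1 -/
theorem outside_limit (hφ : TF φ A B) (hB : B < 0) (hF : FC F η) :
    Tendsto (fun X : ℝ => ∫ t in (Set.Icc (0:ℝ) (2 * Real.pi * X))ᶜ,
      ‖riemannZeta (1/2 + t * I)‖ ^ 3 * ‖MX φ X (1/2 + t * I) * BX F X (1/2 + t * I)‖) atTop (𝓝 0) := sorry

/-- Row O2 -/
theorem bessel (g : ℝ → ℂ) (hg : Continuous g) {T : ℝ} (hT : 0 ≤ T) (l : ℝ) (hl : 0 ≤ l) :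
    4 * l * ‖∫ t in (0:ℝ)..T, riemannZeta (1/2 + t * I) ^ 3 * g t‖ -
      2 * l ^ 2 * ((∫ t in (0:ℝ)..T, ‖g t‖ ^ 2) +
        ‖∫ t in (0:ℝ)..T, (chi (1/2 + t * I) ^ 3)⁻¹ * g t ^ 2‖) ≤
      ∫ t in (0:ℝ)..T, ‖riemannZeta (1/2 + t * I)‖ ^ 6 := sorry

/-- Row O3 -/
theorem lower_bound_test (hφ : TF φ A B) (hB : B < 0) (hφ0 : φ ≠ 0) (hF : FC F η)
    (hG : 0 < GG F) {c : ℝ}
    (hc : c * ((∫ v : ℝ, ‖φ v‖ ^ 2 * Real.exp v) * GG F) <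
      2 * (arith 3) * (‖∫ v : ℝ, φ v * (Real.exp v : ℝ)‖ ^ 2 * JJ F ^ 2)) :
    ∀ᶠ X in atTop, c * (2 * Real.pi * X * Real.log X ^ 9) ≤
      ∫ t in (0:ℝ)..(2 * Real.pi * X), ‖riemannZeta (1/2 + t * I)‖ ^ 6 := sorry

/-! ### Block C : choice of the test functions -/

/-- `P(α,δ) = (1-δ)²/2 - α(1-δ)/2 + α²/20` -/
noncomputable def PP (α δ : ℝ) : ℝ := (1 - δ) ^ 2 / 2 - α * (1 - δ) / 2 + α ^ 2 / 20

/-- the region `3α/2 + δ ≤ 1 - 2η`, `α - δ ≤ 1/2 - 2η` -/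
def Reg (η : ℝ) : Set (ℝ × ℝ) :=
  {z | 0 ≤ z.1 ∧ 0 ≤ z.2 ∧ 3/2 * z.1 + z.2 ≤ 1 - 2 * η ∧ z.1 - z.2 ≤ 1/2 - 2 * η}

/-- Row C1 -/
theorem exists_F {η : ℝ} (h0 : 0 < η) (h1 : η ≤ 1/4) :
    ∃ (F : ℝ → ℝ → ℝ) (κ : ℝ → ℝ → ℝ), FC F η ∧ (Continuous fun p : ℝ × ℝ => κ p.1 p.2) ∧
      (∀ u v, 0 ≤ κ u v ∧ κ u v ≤ 1) ∧ (∀ z ∈ Reg η, κ z.1 z.2 = 1) ∧
      (∀ u v, 0 ≤ u → 0 ≤ v → κ u v ≠ 0 → 3/2 * u + v ≤ 1 - η ∧ u - v ≤ 1/2 - η) ∧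
      ∀ u v, 0 ≤ u → 0 ≤ v → HF F u v = κ u v * PP u v := sorry

/-- Row C2 -/
theorem JG_lower {η : ℝ} (h0 : 0 < η) (h1 : η ≤ 1/4) :
    ∃ F : ℝ → ℝ → ℝ, FC F η ∧ 0 < GG F ∧
      (∫ z in Reg η, z.1 ^ 3 / 6 * PP z.1 z.2 ^ 2) * GG F ≤ JJ F ^ 2 := sorry

/-- Row C3 -/
theorem exists_phi {ε : ℝ} (hε : 0 < ε) :
    ∃ (φ : ℝ → ℂ) (A B : ℝ), TF φ A B ∧ B < 0 ∧ φ ≠ 0 ∧
      (1 - ε) * ∫ v : ℝ, ‖φ v‖ ^ 2 * Real.exp v ≤ ‖∫ v : ℝ, φ v * (Real.exp v : ℝ)‖ ^ 2 := sorry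

/-- Row C4 -/
theorem region_integral :
    2 * (Nat.factorial 9 : ℝ) * ∫ z in Reg 0, z.1 ^ 3 / 6 * PP z.1 z.2 ^ 2 =
      34267427403 / 1000000000 := sorry

/-- Row C5 -/
theorem region_tendsto :
    Tendsto (fun η : ℝ => ∫ z in Reg η, z.1 ^ 3 / 6 * PP z.1 z.2 ^ 2) (𝓝[>] 0)
      (𝓝 (∫ z in Reg 0, z.1 ^ 3 / 6 * PP z.1 z.2 ^ 2)) := sorry

/-- Row C6 -/
theorem final {c : ℝ} (hc : c < 34267427403 / 1000000000) :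
    ∀ᶠ T in atTop, c * (arith 3 / Nat.factorial 9) * Real.log T ^ 9 ≤
      T⁻¹ * ∫ t in (0:ℝ)..T, ‖riemannZeta (1/2 + t * I)‖ ^ 6 := sorry

end MP39df77
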